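import Pool.Agent.Y16.AF.StmA

/-!
# Sums over the momenta (S_SUMS), project AF of helper16, written by helper67
-/

set_option autoImplicit false

namespace Pool.Agent.Y67.AF

open Pool.Agent.Y16.AF

/-- the cube root of `1 + x ^ 2` -/
noncomputable def uu (x : ℝ) : ℝ := (1 + x ^ 2) ^ (1 / 3 : ℝ)

theorem uu_pos (x : ℝ) : 0 < uu x := Real.rpow_pos_of_pos (by positivity) _

theorem cb_cube {x : ℝ} (hx : 0 ≤ x) : (x ^ (1 / 3 : ℝ)) ^ 3 = x := by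
  rw [← Real.rpow_natCast, ← Real.rpow_mul hx]
  norm_num

theorem uu_cube (x : ℝ) : uu x ^ 3 = 1 + x ^ 2 := cb_cube (by positivity)

theorem le_of_cube {a b : ℝ} (hb : 0 ≤ b) (h : a ^ 3 ≤ b ^ 3) : a ≤ b := by
  by_contra hlt
  rw [not_le] at hlt
  have := pow_lt_pow_left₀ hlt hb (n := 3) (by norm_num)
  linarith

/-- the product of the three cube roots -/
theorem prod_uu (v : Fin 3 → ℝ) (hv : 1 ≤ ∑ j, v j ^ 2) : ∏ j, uu (v j) ≤ 2 * ∑ j, v j ^ 2 := by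
  set S := ∑ j, v j ^ 2 with hS
  have hS0 : 0 ≤ 2 * S := by linarith
  have hR : ((2 * S) ^ (1 / 3 : ℝ)) ^ 3 = 2 * S := cb_cube hS0
  have hR0 : 0 ≤ (2 * S) ^ (1 / 3 : ℝ) := Real.rpow_nonneg hS0 _
  have h1 : ∀ j, uu (v j) ≤ (2 * S) ^ (1 / 3 : ℝ) := by
    intro j
    apply le_of_cube hR0
    rw [hR, uu_cube]
    have : v j ^ 2 ≤ S := Finset.single_le_sum (f := fun j => v j ^ 2) (fun _ _ => sq_nonneg _)
      (Finset.mem_univ j)
    linarith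
  calc ∏ j, uu (v j) ≤ ∏ _j : Fin 3, (2 * S) ^ (1 / 3 : ℝ) :=
        Finset.prod_le_prod (fun j _ => (uu_pos _).le) fun j _ => h1 j
    _ = 2 * S := by
        rw [Finset.prod_const, Finset.card_univ, Fintype.card_fin, hR]

theorem step_one (m : ℕ) : 1 / uu ((m + 1 : ℕ) : ℝ) ≤
    3 * (((m + 1 : ℕ) : ℝ) ^ (1 / 3 : ℝ) - (m : ℝ) ^ (1 / 3 : ℝ)) := by
  have hm : (0 : ℝ) ≤ m := Nat.cast_nonneg m
  have hm1 : (0 : ℝ) < ((m + 1 : ℕ) : ℝ) := by positivity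
  set x := ((m + 1 : ℕ) : ℝ) ^ (1 / 3 : ℝ) with hx
  set y := (m : ℝ) ^ (1 / 3 : ℝ) with hy
  have hx3 : x ^ 3 = m + 1 := by
    rw [hx, cb_cube hm1.le]
    push_cast
    ring
  have hy3 : y ^ 3 = m := by rw [hy, cb_cube hm]
  have hx0 : 0 < x := Real.rpow_pos_of_pos hm1 _
  have hy0 : 0 ≤ y := Real.rpow_nonneg hm _
  have hyx : y ≤ x := le_of_cube hx0.le (by rw [hx3, hy3]; linarith)
  have hu : x ^ 2 ≤ uu ((m + 1 : ℕ) : ℝ) := by
    apply le_of_cube (uu_pos _).le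
    rw [uu_cube]
    have : (x ^ 2) ^ 3 = ((m + 1 : ℕ) : ℝ) ^ 2 := by
      rw [← pow_mul, mul_comm, pow_mul, hx3]
      push_cast
      ring
    rw [this]
    linarith
  have h1 : 1 / uu ((m + 1 : ℕ) : ℝ) ≤ 1 / x ^ 2 := one_div_le_one_div_of_le (by positivity) hu
  refine h1.trans ?_
  rw [div_le_iff₀ (by positivity)]
  have h2 : (x - y) * (x ^ 2 + x * y + y ^ 2) = 1 := by
    have : (x - y) * (x ^ 2 + x * y + y ^ 2) = x ^ 3 - y ^ 3 := by ring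
    rw [this, hx3, hy3]
    ring
  have h3 : x ^ 2 + x * y + y ^ 2 ≤ 3 * x ^ 2 := by nlinarith
  have h4 := mul_le_mul_of_nonneg_left h3 (sub_nonneg.mpr hyx)
  nlinarith

theorem sum_one (L : ℕ) : ∑ v ∈ Finset.range L, 1 / uu ((v + 1 : ℕ) : ℝ) ≤
    3 * (L : ℝ) ^ (1 / 3 : ℝ) := by
  induction L with
  | zero => simp
  | succ L ih =>
    rw [Finset.sum_range_succ]
    have := step_one L
    linarith

/-- sums over `ZMod L` of a function of the absolute value -/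
theorem sum_zmod (L : ℕ) [NeZero L] (G : ℕ → ℝ) (hG : ∀ m, 0 ≤ G m) :
    ∑ a : ZMod L, G a.valMinAbs.natAbs ≤ G 0 + 2 * ∑ v ∈ Finset.range L, G (v + 1) := by
  have h1 : ∀ a : ZMod L, G a.valMinAbs.natAbs ≤ G a.val + G (L - a.val) := by
    intro a
    rw [ZMod.valMinAbs_natAbs_eq_min]
    rcases le_total a.val (L - a.val) with h | h
    · rw [min_eq_left h]
      have := hG (L - a.val)
      linarith
    · rw [min_eq_right h]
      have := hG a.val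
      linarith
  have h2 : ∑ a : ZMod L, (G a.val + G (L - a.val)) =
      ∑ v ∈ Finset.range L, (G v + G (L - v)) := by
    refine Finset.sum_nbij' (fun a => a.val) (fun v => (v : ZMod L)) ?_ ?_ ?_ ?_ ?_
    · intro a _
      exact Finset.mem_range.mpr (ZMod.val_lt a)
    · intro v _
      exact Finset.mem_univ _
    · intro a _
      exact ZMod.natCast_zmod_val a
    · intro v hv
      exact ZMod.val_cast_of_lt (Finset.mem_range.mp hv)
    · intro a _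
      rfl
  have h3 : ∑ v ∈ Finset.range L, G (L - v) = ∑ v ∈ Finset.range L, G (v + 1) := by
    rw [← Finset.sum_range_reflect (fun v => G (v + 1)) L]
    refine Finset.sum_congr rfl fun v hv => ?_
    have := Finset.mem_range.mp hv
    congr 1
    omega
  have h4 : ∑ v ∈ Finset.range L, G v ≤ ∑ v ∈ Finset.range L, G (v + 1) + G 0 := by
    rw [← Finset.sum_range_succ']
    exact Finset.sum_le_sum_of_subset_of_nonneg (Finset.range_subset_range.mpr (Nat.le_succ L))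
      fun v _ _ => hG v
  calc ∑ a : ZMod L, G a.valMinAbs.natAbs ≤ ∑ a : ZMod L, (G a.val + G (L - a.val)) :=
        Finset.sum_le_sum fun a _ => h1 a
    _ = ∑ v ∈ Finset.range L, G v + ∑ v ∈ Finset.range L, G (L - v) := by
        rw [h2, Finset.sum_add_distrib]
    _ ≤ G 0 + 2 * ∑ v ∈ Finset.range L, G (v + 1) := by
        rw [h3]
        linarith

theorem sum_cube {L : ℕ} [NeZero L] (f : ZMod L → ℝ) :
    ∑ k : Sp L, ∏ j, f (k j) = (∑ a, f a) ^ 3 := by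
  have h := Finset.prod_univ_sum (fun _ : Fin 3 => (Finset.univ : Finset (ZMod L)))
    (fun (_ : Fin 3) (a : ZMod L) => f a)
  rw [Finset.prod_const, Finset.card_univ, Fintype.card_fin, Fintype.piFinset_univ] at h
  exact h.symm

theorem abs_cast (L : ℕ) [NeZero L] (a : ZMod L) :
    ((a.valMinAbs : ℤ) : ℝ) ^ 2 = ((a.valMinAbs.natAbs : ℕ) : ℝ) ^ 2 := by
  rw [Nat.cast_natAbs, Int.cast_abs, sq_abs]

theorem uu_cast (L : ℕ) [NeZero L] (a : ZMod L) :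
    uu ((a.valMinAbs : ℤ) : ℝ) = uu ((a.valMinAbs.natAbs : ℕ) : ℝ) := by
  unfold uu
  rw [abs_cast]

theorem nn_ge {L : ℕ} [NeZero L] (k : Sp L) (hk : k ≠ 0) :
    (1 : ℝ) ≤ ∑ j, (((k j).valMinAbs : ℤ) : ℝ) ^ 2 := by
  obtain ⟨j, hj⟩ : ∃ j, k j ≠ 0 := by
    by_contra h
    apply hk
    funext j
    by_contra hj
    exact h ⟨j, hj⟩
  have h1 : (k j).valMinAbs ≠ 0 := fun h => hj ((ZMod.valMinAbs_eq_zero _).mp h)
  have h2 : (1 : ℤ) ≤ (k j).valMinAbs ^ 2 := by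
    have : 0 < (k j).valMinAbs ^ 2 := by positivity
    omega
  have h3 : (1 : ℝ) ≤ (((k j).valMinAbs : ℤ) : ℝ) ^ 2 := by exact_mod_cast h2
  exact h3.trans (Finset.single_le_sum (f := fun j => (((k j).valMinAbs : ℤ) : ℝ) ^ 2)
    (fun _ _ => sq_nonneg _) (Finset.mem_univ j))

theorem uu_sq_ge (m : ℕ) : 1 / uu ((m + 1 : ℕ) : ℝ) ^ 2 ≤ 1 / ((m + 1 : ℕ) : ℝ) ^ (4 / 3 : ℝ) := by
  have hm1 : (0 : ℝ) < ((m + 1 : ℕ) : ℝ) := by positivity
  have h1 : ((m + 1 : ℕ) : ℝ) ^ (4 / 3 : ℝ) = (((m + 1 : ℕ) : ℝ) ^ (2 / 3 : ℝ)) ^ 2 := by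
    rw [← Real.rpow_natCast, ← Real.rpow_mul hm1.le]
    norm_num
  have h2 : ((m + 1 : ℕ) : ℝ) ^ (2 / 3 : ℝ) ≤ uu ((m + 1 : ℕ) : ℝ) := by
    apply le_of_cube (uu_pos _).le
    rw [uu_cube, ← Real.rpow_natCast, ← Real.rpow_mul hm1.le]
    have : (2 / 3 : ℝ) * ((3 : ℕ) : ℝ) = ((2 : ℕ) : ℝ) := by norm_num
    rw [this, Real.rpow_natCast]
    linarith
  have h3 : 0 < ((m + 1 : ℕ) : ℝ) ^ (2 / 3 : ℝ) := Real.rpow_pos_of_pos hm1 _
  rw [h1]
  refine one_div_le_one_div_of_le (by positivity) ?_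
  exact pow_le_pow_left₀ h3.le h2 2

/-- **AF-SUMS.** -/
theorem af_sums : S_SUMS := by
  rintro ⟨c, C0, hc, hC0, hen⟩
  have hsum : Summable fun m : ℕ => 1 / ((m + 1 : ℕ) : ℝ) ^ (4 / 3 : ℝ) :=
    (summable_nat_add_iff (f := fun m : ℕ => 1 / (m : ℝ) ^ (4 / 3 : ℝ)) 1).mpr
      (Real.summable_one_div_nat_rpow.mpr (by norm_num))
  set A : ℝ := 1 + 2 * ∑' m : ℕ, 1 / ((m + 1 : ℕ) : ℝ) ^ (4 / 3 : ℝ) with hA
  have hA0 : 0 ≤ A := by
    have : 0 ≤ ∑' m : ℕ, 1 / ((m + 1 : ℕ) : ℝ) ^ (4 / 3 : ℝ) :=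
      tsum_nonneg fun m => by positivity
    rw [hA]
    linarith
  have huu0 : uu ((0 : ℕ) : ℝ) = 1 := by
    unfold uu
    simp
  set K : ℝ := max (4 * A ^ 3 / c ^ 2) (3 * (686 / c)) with hK
  refine ⟨K, fun L _ hL => ?_⟩
  have hL0 : (0 : ℝ) < L := by
    have : 0 < L := by omega
    exact_mod_cast this
  have hL1 : (1 : ℝ) ≤ L := by
    have : 1 ≤ L := by omega
    exact_mod_cast this
  -- one dimensional sums
  have hs1 : ∑ a : ZMod L, 1 / uu ((a.valMinAbs : ℤ) : ℝ) ≤ 7 * (L : ℝ) ^ (1 / 3 : ℝ) := by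
    have h1 := sum_zmod L (fun m => 1 / uu (m : ℝ)) fun m => (one_div_pos.mpr (uu_pos _)).le
    simp only [huu0] at h1
    have h2 := sum_one L
    have h3 : (1 : ℝ) ≤ (L : ℝ) ^ (1 / 3 : ℝ) := Real.one_le_rpow hL1 (by norm_num)
    have h4 : ∑ a : ZMod L, 1 / uu ((a.valMinAbs : ℤ) : ℝ) =
        ∑ a : ZMod L, 1 / uu ((a.valMinAbs.natAbs : ℕ) : ℝ) :=
      Finset.sum_congr rfl fun a _ => by rw [uu_cast]
    rw [h4]
    linarith
  have hs2 : ∑ a : ZMod L, 1 / uu ((a.valMinAbs : ℤ) : ℝ) ^ 2 ≤ A := by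
    have h1 := sum_zmod L (fun m => 1 / uu (m : ℝ) ^ 2) fun m => by
      have := uu_pos (m : ℝ)
      positivity
    simp only [huu0] at h1
    have e : (1 : ℝ) / 1 ^ 2 = 1 := by norm_num
    rw [e] at h1
    have h2 : ∑ v ∈ Finset.range L, 1 / uu ((v + 1 : ℕ) : ℝ) ^ 2 ≤
        ∑' m : ℕ, 1 / ((m + 1 : ℕ) : ℝ) ^ (4 / 3 : ℝ) :=
      (Finset.sum_le_sum fun v _ => uu_sq_ge v).trans
        (hsum.sum_le_tsum _ fun m _ => by positivity)
    have h4 : ∑ a : ZMod L, 1 / uu ((a.valMinAbs : ℤ) : ℝ) ^ 2 =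
        ∑ a : ZMod L, 1 / uu ((a.valMinAbs.natAbs : ℕ) : ℝ) ^ 2 :=
      Finset.sum_congr rfl fun a _ => by rw [uu_cast]
    rw [h4, hA]
    linarith
  -- pointwise bounds
  have hp2 : ∀ k : Sp L, k ≠ 0 → 1 / en k ^ 2 ≤
      2 * (L : ℝ) ^ 2 / c * ∏ j, (1 / uu (((k j).valMinAbs : ℤ) : ℝ)) := by
    intro k hk
    obtain ⟨h0, -, -, -, -, h5, -⟩ := hen L hL k hk
    have hS := nn_ge k hk
    have hP := prod_uu (fun j => (((k j).valMinAbs : ℤ) : ℝ)) hS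
    have hP0 : 0 < ∏ j, uu (((k j).valMinAbs : ℤ) : ℝ) := Finset.prod_pos fun j _ => uu_pos _
    rw [Finset.prod_div_distrib, Finset.prod_const_one, mul_one_div,
      div_le_div_iff₀ (by positivity) hP0, one_mul, div_mul_eq_mul_div, le_div_iff₀ hc]
    have h6 : c * ∏ j, uu (((k j).valMinAbs : ℤ) : ℝ) ≤
        2 * (c * ∑ j, (((k j).valMinAbs : ℤ) : ℝ) ^ 2) := by
      nlinarith [mul_le_mul_of_nonneg_left hP hc.le]
    nlinarith
  have hp4 : ∀ k : Sp L, k ≠ 0 → 1 / en k ^ 4 ≤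
      4 * (L : ℝ) ^ 4 / c ^ 2 * ∏ j, (1 / uu (((k j).valMinAbs : ℤ) : ℝ) ^ 2) := by
    intro k hk
    have h1 := hp2 k hk
    obtain ⟨h0, -⟩ := hen L hL k hk
    have h2 : 1 / en k ^ 4 = (1 / en k ^ 2) ^ 2 := by
      rw [div_pow, one_pow, ← pow_mul]
    have h3 : 4 * (L : ℝ) ^ 4 / c ^ 2 * ∏ j, (1 / uu (((k j).valMinAbs : ℤ) : ℝ) ^ 2) =
        (2 * (L : ℝ) ^ 2 / c * ∏ j, (1 / uu (((k j).valMinAbs : ℤ) : ℝ))) ^ 2 := by
      rw [mul_pow, ← Finset.prod_pow, div_pow]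
      congr 1
      · congr 1
        ring
      · refine Finset.prod_congr rfl fun j _ => ?_
        rw [div_pow, one_pow]
    rw [h2, h3]
    exact pow_le_pow_left₀ (by positivity) h1 2
  have hnn1 : ∀ k : Sp L, 0 ≤ 2 * (L : ℝ) ^ 2 / c * ∏ j, (1 / uu (((k j).valMinAbs : ℤ) : ℝ)) :=
    fun k => mul_nonneg (by positivity) (Finset.prod_nonneg fun j _ =>
      (one_div_pos.mpr (uu_pos _)).le)
  have hnn2 : ∀ k : Sp L, 0 ≤ 4 * (L : ℝ) ^ 4 / c ^ 2 *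
      ∏ j, (1 / uu (((k j).valMinAbs : ℤ) : ℝ) ^ 2) :=
    fun k => mul_nonneg (by positivity) (Finset.prod_nonneg fun j _ => by
      have := uu_pos (((k j).valMinAbs : ℤ) : ℝ)
      positivity)
  have hT2 : ∑ k ∈ Finset.univ.filter (fun k : Sp L => k ≠ 0), 1 / en k ^ 2 ≤
      686 / c * (L : ℝ) ^ 3 := by
    calc ∑ k ∈ Finset.univ.filter (fun k : Sp L => k ≠ 0), 1 / en k ^ 2
        ≤ ∑ k ∈ Finset.univ.filter (fun k : Sp L => k ≠ 0),
            2 * (L : ℝ) ^ 2 / c * ∏ j, (1 / uu (((k j).valMinAbs : ℤ) : ℝ)) :=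
          Finset.sum_le_sum fun k hk => hp2 k (Finset.mem_filter.mp hk).2
      _ ≤ ∑ k : Sp L, 2 * (L : ℝ) ^ 2 / c * ∏ j, (1 / uu (((k j).valMinAbs : ℤ) : ℝ)) :=
          Finset.sum_le_sum_of_subset_of_nonneg (Finset.filter_subset _ _) fun k _ _ => hnn1 k
      _ = 2 * (L : ℝ) ^ 2 / c * (∑ a : ZMod L, 1 / uu ((a.valMinAbs : ℤ) : ℝ)) ^ 3 := by
          rw [← Finset.mul_sum, sum_cube (fun a : ZMod L => 1 / uu ((a.valMinAbs : ℤ) : ℝ))]
      _ ≤ 2 * (L : ℝ) ^ 2 / c * (7 * (L : ℝ) ^ (1 / 3 : ℝ)) ^ 3 := by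
          refine mul_le_mul_of_nonneg_left (pow_le_pow_left₀ ?_ hs1 3) (by positivity)
          exact Finset.sum_nonneg fun a _ => (one_div_pos.mpr (uu_pos _)).le
      _ = 686 / c * (L : ℝ) ^ 3 := by
          rw [mul_pow, cb_cube hL0.le]
          ring
  refine ⟨?_, ?_, ?_⟩
  · calc ∑ k ∈ Finset.univ.filter (fun k : Sp L => k ≠ 0), 1 / en k ^ 4
        ≤ ∑ k ∈ Finset.univ.filter (fun k : Sp L => k ≠ 0),
            4 * (L : ℝ) ^ 4 / c ^ 2 * ∏ j, (1 / uu (((k j).valMinAbs : ℤ) : ℝ) ^ 2) :=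
          Finset.sum_le_sum fun k hk => hp4 k (Finset.mem_filter.mp hk).2
      _ ≤ ∑ k : Sp L, 4 * (L : ℝ) ^ 4 / c ^ 2 *
            ∏ j, (1 / uu (((k j).valMinAbs : ℤ) : ℝ) ^ 2) :=
          Finset.sum_le_sum_of_subset_of_nonneg (Finset.filter_subset _ _) fun k _ _ => hnn2 k
      _ = 4 * (L : ℝ) ^ 4 / c ^ 2 * (∑ a : ZMod L, 1 / uu ((a.valMinAbs : ℤ) : ℝ) ^ 2) ^ 3 := by
          rw [← Finset.mul_sum, sum_cube (fun a : ZMod L => 1 / uu ((a.valMinAbs : ℤ) : ℝ) ^ 2)]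
      _ ≤ 4 * (L : ℝ) ^ 4 / c ^ 2 * A ^ 3 := by
          refine mul_le_mul_of_nonneg_left (pow_le_pow_left₀ ?_ hs2 3) (by positivity)
          refine Finset.sum_nonneg fun a _ => ?_
          have := uu_pos ((a.valMinAbs : ℤ) : ℝ)
          positivity
      _ = 4 * A ^ 3 / c ^ 2 * (L : ℝ) ^ 4 := by ring
      _ ≤ K * (L : ℝ) ^ 4 := mul_le_mul_of_nonneg_right (le_max_left _ _) (by positivity)
  · refine hT2.trans (mul_le_mul_of_nonneg_right ?_ (by positivity))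
    refine le_trans ?_ (le_max_right _ _)
    have : 0 < 686 / c := by positivity
    linarith
  · have h1 : ∑ k ∈ Finset.univ.filter (fun k : Sp L => k ≠ 0), 1 / en k ≤
        ∑ k ∈ Finset.univ.filter (fun k : Sp L => k ≠ 0), 3 * (1 / en k ^ 2) := by
      refine Finset.sum_le_sum fun k hk => ?_
      obtain ⟨h0, -, h3, -⟩ := hen L hL k (Finset.mem_filter.mp hk).2
      rw [mul_one_div, div_le_div_iff₀ h0 (by positivity)]
      nlinarith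
    rw [← Finset.mul_sum] at h1
    refine h1.trans ?_
    calc 3 * ∑ k ∈ Finset.univ.filter (fun k : Sp L => k ≠ 0), 1 / en k ^ 2
        ≤ 3 * (686 / c * (L : ℝ) ^ 3) := mul_le_mul_of_nonneg_left hT2 (by norm_num)
      _ = 3 * (686 / c) * (L : ℝ) ^ 3 := by ring
      _ ≤ K * (L : ℝ) ^ 3 := mul_le_mul_of_nonneg_right (le_max_right _ _) (by positivity)

end Pool.Agent.Y67.AF
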